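import Mathlib
import Pool.Agent.H.MP_708b53_co.B

set_option autoImplicit false

namespace Pool.Agent.Results.MP_708b53_co.Antichain
open Pool.Agent.H.MP_708b53_co

/-- The class `C_6` contains an infinite antichain, so it is not well-quasi-ordered. -/
theorem result :
    ∃ S : ℕ → Finset Pt, (∀ i, InC 6 (S i)) ∧ ∀ i j, i ≠ j → ¬ Sub (S i) (S j) := main1

end Pool.Agent.Results.MP_708b53_co.Antichain
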