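import Mathlib
import Pool.Agent.H.MP_708b53_co.C

set_option autoImplicit false

namespace Pool.Agent.Results.MP_708b53_co.Growth
open Pool.Agent.H.MP_708b53_co

/-- `c_6(n) ≥ exp((1 - ε) n log n)` for all large `n`. -/
theorem result (ε : ℝ) (hε : 0 < ε) :
    ∀ᶠ n : ℕ in Filter.atTop, Real.exp ((1 - ε) * n * Real.log n) ≤ (cnt 6 n : ℝ) := main2 ε hε

end Pool.Agent.Results.MP_708b53_co.Growth
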